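import Pool.Agent.Q261.ZG.WDG

/-! Project ZG: products of tensors and commutators of derivations. -/

set_option autoImplicit false

namespace Pool.Agent.Q261.ZG

open Matrix Pool.Agent.Q60.ED Pool.Agent.Q271.ZG

variable {ι : Type} [Fintype ι] [DecidableEq ι]

/-- product of tensors -/
def tmul {k k' : ℕ} (ω : (Fin k → ι) → ℂ) (ω' : (Fin k' → ι) → ℂ) : (Fin (k + k') → ι) → ℂ :=
  fun L => ω (fun i => L (Fin.castAdd k' i)) * ω' fun i => L (Fin.natAdd k i)

omit [Fintype ι] [DecidableEq ι] in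
lemma tmul_append {k k' : ℕ} (ω : (Fin k → ι) → ℂ) (ω' : (Fin k' → ι) → ℂ) (I : Fin k → ι)
    (J : Fin k' → ι) : tmul ω ω' (Fin.append I J) = ω I * ω' J := by
  unfold tmul
  simp only [Fin.append_left, Fin.append_right]

omit [Fintype ι] [DecidableEq ι] in
lemma tmul_ne {k k' : ℕ} {ω : (Fin k → ι) → ℂ} {ω' : (Fin k' → ι) → ℂ} (h : ω ≠ 0)
    (h' : ω' ≠ 0) : tmul ω ω' ≠ 0 := by
  obtain ⟨I, hI⟩ := Function.ne_iff.1 h
  obtain ⟨J, hJ⟩ := Function.ne_iff.1 h'
  intro h0
  have h1 := congrFun h0 (Fin.append I J)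
  rw [tmul_append] at h1
  exact mul_ne_zero hI hJ h1

lemma dTP_tmul {k k' : ℕ} (x : Matrix ι ι ℂ) (ω : (Fin k → ι) → ℂ) (ω' : (Fin k' → ι) → ℂ) :
    dTP x (k + k') *ᵥ tmul ω ω' = tmul (dTP x k *ᵥ ω) ω' + tmul ω (dTP x k' *ᵥ ω') := by
  funext L
  rw [dTP_mulVec, Fin.sum_univ_add, Pi.add_apply]
  congr 1
  · unfold tmul
    rw [dTP_mulVec, Finset.sum_mul]
    refine Finset.sum_congr rfl fun m _ => ?_
    rw [Finset.sum_mul]
    refine Finset.sum_congr rfl fun a _ => ?_
    have h1 : (fun i => Function.update L (Fin.castAdd k' m) a (Fin.castAdd k' i)) =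
        Function.update (fun i => L (Fin.castAdd k' i)) m a := by
      funext i
      by_cases hi : i = m
      · subst hi
        rw [Function.update_self, Function.update_self]
      · rw [Function.update_of_ne hi, Function.update_of_ne]
        intro h
        exact hi (Fin.castAdd_injective _ _ h)
    have h2 : (fun i => Function.update L (Fin.castAdd k' m) a (Fin.natAdd k i)) =
        fun i => L (Fin.natAdd k i) := by
      funext i
      rw [Function.update_of_ne]
      intro h
      have h3 := congrArg Fin.val h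
      rw [Fin.val_natAdd, Fin.val_castAdd] at h3
      omega
    rw [h1, h2]
    ring
  · unfold tmul
    rw [dTP_mulVec, Finset.mul_sum]
    refine Finset.sum_congr rfl fun m _ => ?_
    rw [Finset.mul_sum]
    refine Finset.sum_congr rfl fun a _ => ?_
    have h1 : (fun i => Function.update L (Fin.natAdd k m) a (Fin.castAdd k' i)) =
        fun i => L (Fin.castAdd k' i) := by
      funext i
      rw [Function.update_of_ne]
      intro h
      have h3 := congrArg Fin.val h
      rw [Fin.val_natAdd, Fin.val_castAdd] at h3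
      omega
    have h2 : (fun i => Function.update L (Fin.natAdd k m) a (Fin.natAdd k i)) =
        Function.update (fun i => L (Fin.natAdd k i)) m a := by
      funext i
      by_cases hi : i = m
      · subst hi
        rw [Function.update_self, Function.update_self]
      · rw [Function.update_of_ne hi, Function.update_of_ne]
        intro h
        exact hi (Fin.natAdd_injective _ _ h)
    rw [h1, h2]
    ring

lemma TP_tmul {k k' : ℕ} (g : Matrix ι ι ℂ) (ω : (Fin k → ι) → ℂ) (ω' : (Fin k' → ι) → ℂ) :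
    TP g (k + k') *ᵥ tmul ω ω' = tmul (TP g k *ᵥ ω) (TP g k' *ᵥ ω') := by
  funext L
  have h1 : (TP g (k + k') *ᵥ tmul ω ω') L = ∑ J, (∏ m, g (L m) (J m)) * tmul ω ω' J := rfl
  rw [h1, sum_append]
  simp only [tmul_append]
  unfold tmul
  have h2 : (TP g k *ᵥ ω) (fun i => L (Fin.castAdd k' i)) =
      ∑ I, (∏ m, g (L (Fin.castAdd k' m)) (I m)) * ω I := rfl
  have h3 : (TP g k' *ᵥ ω') (fun i => L (Fin.natAdd k i)) =
      ∑ J, (∏ m, g (L (Fin.natAdd k m)) (J m)) * ω' J := rfl
  rw [h2, h3, Finset.sum_mul_sum]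
  refine Finset.sum_congr rfl fun I _ => Finset.sum_congr rfl fun J _ => ?_
  rw [Fin.prod_univ_add]
  simp only [Fin.append_left, Fin.append_right]
  ring

/-- composition of two derivations -/
lemma dTP_dTP (x y : Matrix ι ι ℂ) (k : ℕ) (ω : (Fin k → ι) → ℂ) (I : Fin k → ι) :
    (dTP x k *ᵥ (dTP y k *ᵥ ω)) I = (dTP (x * y) k *ᵥ ω) I +
      ∑ m, ∑ m', if m' ≠ m then ∑ a, ∑ b, x (I m) a * (y (I m') b *
        ω (Function.update (Function.update I m a) m' b)) else 0 := by
  rw [dTP_mulVec, dTP_mulVec, ← Finset.sum_add_distrib]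
  refine Finset.sum_congr rfl fun m _ => ?_
  have h1 : ∀ a, (dTP y k *ᵥ ω) (Function.update I m a) =
      ∑ b, y a b * ω (Function.update I m b) + ∑ m', if m' ≠ m then
        ∑ b, y (I m') b * ω (Function.update (Function.update I m a) m' b) else 0 := by
    intro a
    rw [dTP_mulVec, ← Finset.sum_filter, ← Finset.add_sum_erase _ _ (Finset.mem_univ m)]
    congr 1
    · refine Finset.sum_congr rfl fun b _ => ?_
      rw [Function.update_self, Function.update_idem]
    · have h2 : Finset.univ.erase m = Finset.univ.filter (fun m' : Fin k => m' ≠ m) := by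
        ext m'
        simp
      rw [h2]
      refine Finset.sum_congr rfl fun m' hm' => ?_
      have h3 := (Finset.mem_filter.1 hm').2
      refine Finset.sum_congr rfl fun b _ => ?_
      rw [Function.update_of_ne h3]
  simp only [h1, mul_add, Finset.sum_add_distrib]
  congr 1
  · simp only [Finset.mul_sum]
    rw [Finset.sum_comm]
    refine Finset.sum_congr rfl fun b _ => ?_
    rw [Matrix.mul_apply, Finset.sum_mul]
    refine Finset.sum_congr rfl fun a _ => ?_
    ring
  · simp only [Finset.mul_sum]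
    rw [Finset.sum_comm]
    refine Finset.sum_congr rfl fun m' _ => ?_
    by_cases h : m' ≠ m
    · simp only [if_pos h]
      refine Finset.sum_congr rfl fun a _ => ?_
      rw [Finset.mul_sum]
    · simp only [if_neg h, mul_zero, Finset.sum_const_zero]

lemma dTP_sub_apply (x y : Matrix ι ι ℂ) (k : ℕ) (ω : (Fin k → ι) → ℂ) :
    dTP (x - y) k *ᵥ ω = dTP x k *ᵥ ω - dTP y k *ᵥ ω := by
  funext I
  rw [Pi.sub_apply, dTP_mulVec, dTP_mulVec, dTP_mulVec, ← Finset.sum_sub_distrib]
  refine Finset.sum_congr rfl fun m _ => ?_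
  rw [← Finset.sum_sub_distrib]
  refine Finset.sum_congr rfl fun a _ => ?_
  rw [Matrix.sub_apply]
  ring

lemma dTP_smul_apply (c : ℂ) (x : Matrix ι ι ℂ) (k : ℕ) (ω : (Fin k → ι) → ℂ) :
    dTP (c • x) k *ᵥ ω = c • (dTP x k *ᵥ ω) := by
  funext I
  rw [Pi.smul_apply, dTP_mulVec, dTP_mulVec, smul_eq_mul, Finset.mul_sum]
  refine Finset.sum_congr rfl fun m _ => ?_
  rw [Finset.mul_sum]
  refine Finset.sum_congr rfl fun a _ => ?_
  rw [Matrix.smul_apply, smul_eq_mul]
  ring

/-- commutators of derivations -/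
lemma dTP_comm (x y : Matrix ι ι ℂ) (k : ℕ) (ω : (Fin k → ι) → ℂ) :
    dTP x k *ᵥ (dTP y k *ᵥ ω) = dTP (x * y - y * x) k *ᵥ ω + dTP y k *ᵥ (dTP x k *ᵥ ω) := by
  rw [dTP_sub_apply]
  funext I
  rw [Pi.add_apply, Pi.sub_apply, dTP_dTP x y, dTP_dTP y x]
  have h1 : ∑ m, ∑ m', (if m' ≠ m then ∑ a, ∑ b, x (I m) a * (y (I m') b *
        ω (Function.update (Function.update I m a) m' b)) else 0) =
      ∑ m, ∑ m', if m' ≠ m then ∑ a, ∑ b, y (I m) a * (x (I m') b *
        ω (Function.update (Function.update I m a) m' b)) else 0 := by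
    rw [Finset.sum_comm]
    refine Finset.sum_congr rfl fun m _ => Finset.sum_congr rfl fun m' _ => ?_
    by_cases h : m' ≠ m
    · rw [if_pos h, if_pos (Ne.symm h), Finset.sum_comm]
      refine Finset.sum_congr rfl fun a _ => Finset.sum_congr rfl fun b _ => ?_
      rw [Function.update_comm h]
      ring
    · rw [if_neg h, if_neg (by push Not at h ⊢; exact h.symm)]
  rw [h1]
  ring

lemma TP_diag_apply (ζ : ι → ℂ) (k : ℕ) (ω : (Fin k → ι) → ℂ) (I : Fin k → ι) :
    (TP (diagonal ζ) k *ᵥ ω) I = (∏ m, ζ (I m)) * ω I := by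
  have h1 : (TP (diagonal ζ) k *ᵥ ω) I = ∑ J, (∏ m, diagonal ζ (I m) (J m)) * ω J := rfl
  rw [h1, Finset.sum_eq_single I]
  · simp only [diagonal_apply_eq]
  · intro J _ hJ
    obtain ⟨m, hm⟩ := Function.ne_iff.1 hJ
    have h2 : diagonal ζ (I m) (J m) = 0 := diagonal_apply_ne _ (fun h => hm h.symm)
    rw [Finset.prod_eq_zero (Finset.mem_univ m) h2, zero_mul]
  · intro h
    exact absurd (Finset.mem_univ _) h

lemma dTP_diag_apply (ζ : ι → ℂ) (k : ℕ) (ω : (Fin k → ι) → ℂ) (I : Fin k → ι) :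
    (dTP (diagonal ζ) k *ᵥ ω) I = (∑ m, ζ (I m)) * ω I := by
  rw [dTP_mulVec, Finset.sum_mul]
  refine Finset.sum_congr rfl fun m _ => ?_
  rw [Finset.sum_eq_single (I m)]
  · rw [diagonal_apply_eq, Function.update_eq_self]
  · intro a _ ha
    rw [diagonal_apply_ne _ (Ne.symm ha), zero_mul]
  · intro h
    exact absurd (Finset.mem_univ _) h

/-- a diagonal matrix commuting with `x` -/
lemma TP_diag_comm (ζ : ι → ℂ) (x : Matrix ι ι ℂ) (h : diagonal ζ * x = x * diagonal ζ) (k : ℕ)
    (ω : (Fin k → ι) → ℂ) :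
    TP (diagonal ζ) k *ᵥ (dTP x k *ᵥ ω) = dTP x k *ᵥ (TP (diagonal ζ) k *ᵥ ω) := by
  funext I
  rw [TP_diag_apply, dTP_mulVec, dTP_mulVec, Finset.mul_sum]
  refine Finset.sum_congr rfl fun m _ => ?_
  rw [Finset.mul_sum]
  refine Finset.sum_congr rfl fun a _ => ?_
  rw [TP_diag_apply]
  by_cases hx : x (I m) a = 0
  · rw [hx]
    ring
  · have h1 : ζ (I m) = ζ a := by
      have h2 := congrFun (congrFun h (I m)) a
      rw [diagonal_mul, mul_diagonal, mul_comm] at h2
      exact mul_left_cancel₀ hx h2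
    have h3 : ∏ l, ζ (Function.update I m a l) = ∏ l, ζ (I l) := by
      refine Finset.prod_congr rfl fun l _ => ?_
      by_cases hl : l = m
      · rw [hl, Function.update_self, h1]
      · rw [Function.update_of_ne hl]
    rw [h3]
    ring

end Pool.Agent.Q261.ZG
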