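import Pool.Agent.Q271.ZG.Stm

/-! Project ZG, job WDG: antisymmetric tensors of coordinate vectors. -/

set_option autoImplicit false

namespace Pool.Agent.Q261.ZG

open Matrix Pool.Agent.Q60.ED Pool.Agent.Q271.ZG

/-! ### determinants -/

section det

variable {k : ℕ}

lemma det_row_sum {κ : Type} (t : Finset κ) (M : Matrix (Fin k) (Fin k) ℂ) (m : Fin k)
    (w : κ → ℂ) (b : κ → Fin k → ℂ) :
    ∑ a ∈ t, w a * (updateRow M m (b a)).det = (updateRow M m (∑ a ∈ t, w a • b a)).det := by
  rw [← cramer_transpose_apply, map_sum, Finset.sum_apply]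
  refine Finset.sum_congr rfl fun a _ => ?_
  rw [map_smul, Pi.smul_apply, smul_eq_mul, cramer_transpose_apply]

lemma det_rows (M y : Matrix (Fin k) (Fin k) ℂ) :
    ∑ m, (updateRow M m ((M * y) m)).det = y.trace * M.det := by
  have h1 : ∀ m, (updateRow M m ((M * y) m)).det = ∑ j, adjugate M j m * (M * y) m j := by
    intro m
    rw [← cramer_transpose_apply, cramer_eq_adjugate_mulVec, ← adjugate_transpose]
    rfl
  rw [Finset.sum_congr rfl fun m _ => h1 m, Finset.sum_comm]
  have h2 : ∑ j, ∑ m, adjugate M j m * (M * y) m j = (adjugate M * (M * y)).trace := rfl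
  rw [h2, ← Matrix.mul_assoc, adjugate_mul, Matrix.smul_mul, Matrix.one_mul, trace_smul,
    smul_eq_mul, mul_comm]

end det

variable {ι : Type} [Fintype ι] [DecidableEq ι]

/-- the derivation on tensors, by updates -/
lemma dTP_mulVec (x : Matrix ι ι ℂ) (k : ℕ) (ω : (Fin k → ι) → ℂ) (I : Fin k → ι) :
    (dTP x k *ᵥ ω) I = ∑ m, ∑ a, x (I m) a * ω (Function.update I m a) := by
  have h1 : (dTP x k *ᵥ ω) I =
      ∑ J, (∑ m, if ∀ l, l ≠ m → I l = J l then x (I m) (J m) else 0) * ω J := rfl
  rw [h1]
  simp only [Finset.sum_mul]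
  rw [Finset.sum_comm]
  refine Finset.sum_congr rfl fun m _ => ?_
  simp only [ite_mul, zero_mul]
  rw [← Finset.sum_filter]
  refine (Finset.sum_nbij' (fun a => Function.update I m a) (fun J => J m) ?_ ?_ ?_ ?_ ?_).symm
  · intro a _
    rw [Finset.mem_filter]
    exact ⟨Finset.mem_univ _, fun l hl => by rw [Function.update_of_ne hl]⟩
  · intro J _
    exact Finset.mem_univ _
  · intro a _
    exact Function.update_self _ _ _
  · intro J hJ
    have h2 := (Finset.mem_filter.1 hJ).2
    funext l
    by_cases hl : l = m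
    · rw [hl, Function.update_self]
    · rw [Function.update_of_ne hl, h2 l hl]
  · intro a _
    rw [Function.update_self]

/-- the matrix of `wdg` -/
def wm {k : ℕ} (c I : Fin k → ι) : Matrix (Fin k) (Fin k) ℂ :=
  Matrix.of fun r s : Fin k => if I r = c s then (1 : ℂ) else 0

lemma wdg_eq {k : ℕ} (c I : Fin k → ι) : wdg c I = (wm c I).det := rfl

lemma wm_self {k : ℕ} {c : Fin k → ι} (hc : Function.Injective c) : wm c c = 1 := by
  ext r s
  unfold wm
  rw [of_apply, one_apply]
  by_cases h : r = s
  · rw [if_pos h, if_pos (by rw [h])]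
  · rw [if_neg h, if_neg fun h' => h (hc h')]

lemma wm_update {k : ℕ} (c I : Fin k → ι) (m : Fin k) (a : ι) :
    wm c (Function.update I m a) = updateRow (wm c I) m (fun s => if a = c s then (1 : ℂ) else 0) := by
  ext r s
  by_cases h : r = m
  · subst h
    rw [updateRow_self]
    unfold wm
    rw [of_apply, Function.update_self]
  · rw [updateRow_ne h]
    unfold wm
    rw [of_apply, of_apply, Function.update_of_ne h]

/-- the value of the derivation on `wdg` -/
lemma dTP_wdg {k : ℕ} (c : Fin k → ι) (x : Matrix ι ι ℂ) (I : Fin k → ι) :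
    (dTP x k *ᵥ wdg c) I = ∑ m, (updateRow (wm c I) m fun s => x (I m) (c s)).det := by
  rw [dTP_mulVec]
  refine Finset.sum_congr rfl fun m _ => ?_
  simp only [wdg_eq, wm_update]
  rw [det_row_sum]
  congr 2
  funext s
  rw [Finset.sum_apply]
  simp

lemma TP_wdg {k : ℕ} (c : Fin k → ι) (v : Matrix ι ι ℂ) (I : Fin k → ι) :
    (TP v k *ᵥ wdg c) I = (Matrix.of fun r s : Fin k => v (I r) (c s)).det := by
  have h1 : (TP v k *ᵥ wdg c) I = ∑ J, (∏ m, v (I m) (J m)) * (wm c J).det := rfl
  rw [h1]
  simp only [det_apply', Finset.mul_sum]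
  rw [Finset.sum_comm]
  refine Finset.sum_congr rfl fun σ _ => ?_
  have h2 : ∀ J : Fin k → ι, (∏ m, v (I m) (J m)) * (((Equiv.Perm.sign σ : ℤ) : ℂ) *
      ∏ s, wm c J (σ s) s) = ((Equiv.Perm.sign σ : ℤ) : ℂ) *
      ∏ m, (v (I m) (J m) * if J m = c (σ.symm m) then (1 : ℂ) else 0) := by
    intro J
    have h3 : ∏ s, wm c J (σ s) s = ∏ m, if J m = c (σ.symm m) then (1 : ℂ) else 0 := by
      rw [← Equiv.prod_comp σ (fun m => if J m = c (σ.symm m) then (1 : ℂ) else 0)]
      refine Finset.prod_congr rfl fun s _ => ?_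
      rw [Equiv.symm_apply_apply]
      rfl
    rw [h3, Finset.prod_mul_distrib]
    ring
  rw [Finset.sum_congr rfl fun J _ => h2 J, ← Finset.mul_sum]
  congr 1
  have h4 : ∑ J : Fin k → ι, ∏ m, (v (I m) (J m) * if J m = c (σ.symm m) then (1 : ℂ) else 0) =
      ∏ m, ∑ a : ι, (v (I m) a * if a = c (σ.symm m) then (1 : ℂ) else 0) := by
    rw [Finset.prod_univ_sum, Fintype.piFinset_univ]
  rw [h4, ← Equiv.prod_comp σ
    (fun m => ∑ a : ι, (v (I m) a * if a = c (σ.symm m) then (1 : ℂ) else 0))]
  refine Finset.prod_congr rfl fun s _ => ?_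
  rw [Equiv.symm_apply_apply]
  simp

theorem main_WDG : Pool.Agent.Q271.ZG.S_WDG := by
  intro ι _ _ k c hc
  have hone : wdg c c = 1 := by
    rw [wdg_eq, wm_self hc, det_one]
  have hzero : ∀ (r : Fin k) (i : ι), i ∉ Set.range c → wdg c (Function.update c r i) = 0 := by
    intro r i hi
    rw [wdg_eq]
    refine det_eq_zero_of_row_eq_zero r fun s => ?_
    unfold wm
    rw [of_apply, Function.update_self, if_neg fun h => hi ⟨s, h.symm⟩]
  refine ⟨hone, TP_wdg c, ?_, ?_, ?_⟩
  · intro x hx
    funext I
    rw [dTP_wdg, Pi.smul_apply, smul_eq_mul, wdg_eq]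
    have h1 : ∀ m, (fun s => x (I m) (c s)) =
        (wm c I * Matrix.of fun s t : Fin k => x (c s) (c t)) m := by
      intro m
      funext t
      have h2 : (wm c I * Matrix.of fun s t : Fin k => x (c s) (c t)) m t =
          ∑ s, (if I m = c s then (1 : ℂ) else 0) * x (c s) (c t) := rfl
      rw [h2]
      simp only [ite_mul, one_mul, zero_mul]
      by_cases hm : I m ∈ Set.range c
      · obtain ⟨s₀, hs₀⟩ := hm
        rw [Finset.sum_eq_single s₀]
        · rw [if_pos hs₀.symm, hs₀]
        · intro s _ hs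
          rw [if_neg]
          intro h
          exact hs (hc (h.symm.trans hs₀.symm))
        · intro h
          exact absurd (Finset.mem_univ _) h
      · rw [hx _ hm, Finset.sum_eq_zero]
        intro s _
        rw [if_neg fun h => hm ⟨s, h.symm⟩]
    have h3 : ∀ m, (updateRow (wm c I) m fun s => x (I m) (c s)).det =
        (updateRow (wm c I) m ((wm c I * Matrix.of fun s t : Fin k => x (c s) (c t)) m)).det := by
      intro m
      rw [← h1 m]
    rw [Finset.sum_congr rfl fun m _ => h3 m, det_rows]
    rfl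
  · intro x r i hi
    rw [dTP_wdg, Finset.sum_eq_single r]
    · rw [Function.update_self, wm_update, wm_self hc]
      have h1 : updateRow (updateRow (1 : Matrix (Fin k) (Fin k) ℂ) r
          fun s => if i = c s then (1 : ℂ) else 0) r (fun s => x i (c s)) =
          updateRow (1 : Matrix (Fin k) (Fin k) ℂ) r (fun s => x i (c s)) := by
        ext p q
        by_cases hp : p = r
        · subst hp
          rw [updateRow_self, updateRow_self]
        · rw [updateRow_ne hp, updateRow_ne hp, updateRow_ne hp]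
      rw [h1, ← cramer_transpose_apply, transpose_one, cramer_one]
      rfl
    · intro m _ hm
      refine det_eq_zero_of_row_eq_zero r fun s => ?_
      rw [updateRow_ne (Ne.symm hm), wm_update, updateRow_self, if_neg fun h => hi ⟨s, h.symm⟩]
    · intro h
      exact absurd (Finset.mem_univ _) h
  · intro v a hv hva i hi
    have h1 : ∀ I : Fin k → ι, (Matrix.of fun r s : Fin k => v (I r) (c s)).det = a * wdg c I := by
      intro I
      rw [← TP_wdg, hva]
      rfl
    have ha : a ≠ 0 := by
      intro ha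
      rw [ha, zero_smul] at hva
      have h2 : wdg c = 0 := by
        have h3 : TP v⁻¹ k *ᵥ (TP v k *ᵥ wdg c) = wdg c := by
          rw [mulVec_mulVec, (TP_det hv k).2, one_mulVec]
        rw [← h3, hva, mulVec_zero]
      rw [h2] at hone
      exact zero_ne_one hone
    obtain ⟨W, hW⟩ : ∃ W : Matrix (Fin k) (Fin k) ℂ, W = Matrix.of fun r s : Fin k => v (c r) (c s) :=
      ⟨_, rfl⟩
    have hdet : W.det = a := by
      rw [hW, h1 c, hone, mul_one]
    have h4 : ∀ r, cramer Wᵀ (fun s => v i (c s)) r = 0 := by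
      intro r
      rw [cramer_transpose_apply]
      have h5 : updateRow W r (fun s => v i (c s)) =
          Matrix.of fun p q : Fin k => v (Function.update c r i p) (c q) := by
        ext p q
        by_cases hp : p = r
        · subst hp
          rw [updateRow_self, of_apply, Function.update_self]
        · rw [updateRow_ne hp, of_apply, Function.update_of_ne hp, hW]
          rfl
      rw [h5, h1, hzero r i hi, mul_zero]
    have h6 : cramer Wᵀ (fun s => v i (c s)) = 0 := funext h4
    have h7 := mulVec_cramer Wᵀ (fun s => v i (c s))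
    rw [h6, mulVec_zero, det_transpose, hdet] at h7
    intro s
    have h8 := congrFun h7 s
    have h9 : a * v i (c s) = 0 := h8.symm
    exact (mul_eq_zero.1 h9).resolve_left ha

end Pool.Agent.Q261.ZG
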