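import Mathlib
import Pool.Agent.Q271.ZG.Stm
import Pool.Agent.Q261.ZG.WDG
import Pool.Agent.Q261.ZG.Tens

/-!
# Project ZG, job HWM: products of highest weight tensors
-/

set_option autoImplicit false

namespace Pool.Agent.Q261.ZG

open Matrix Pool.Agent.Q60.ED Pool.Agent.Q271.ZG

variable {ι : Type} [Fintype ι] [DecidableEq ι]

omit [Fintype ι] [DecidableEq ι] in
lemma tmul_zero_left {k k' : ℕ} (ω' : (Fin k' → ι) → ℂ) :
    tmul (0 : (Fin k → ι) → ℂ) ω' = 0 := by
  funext L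
  unfold tmul
  simp

omit [Fintype ι] [DecidableEq ι] in
lemma tmul_zero_right {k k' : ℕ} (ω : (Fin k → ι) → ℂ) :
    tmul ω (0 : (Fin k' → ι) → ℂ) = 0 := by
  funext L
  unfold tmul
  simp

omit [Fintype ι] [DecidableEq ι] in
lemma tmul_smul_left {k k' : ℕ} (a : ℂ) (ω : (Fin k → ι) → ℂ) (ω' : (Fin k' → ι) → ℂ) :
    tmul (a • ω) ω' = a • tmul ω ω' := by
  funext L
  unfold tmul
  simp only [Pi.smul_apply, smul_eq_mul]
  ring

omit [Fintype ι] [DecidableEq ι] in
lemma tmul_smul_right {k k' : ℕ} (a : ℂ) (ω : (Fin k → ι) → ℂ) (ω' : (Fin k' → ι) → ℂ) :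
    tmul ω (a • ω') = a • tmul ω ω' := by
  funext L
  unfold tmul
  simp only [Pi.smul_apply, smul_eq_mul]
  ring

/-- part (1) -/
lemma HW_mul (𝔤 : Submodule ℂ (Matrix ι ι ℂ)) {r : ℕ} (e : Fin r → Matrix ι ι ℂ) (ζ : ι → ℂ)
    (k : ℕ) (μ : (ι → ℝ) → ℝ) (c : ℂ) (k' : ℕ) (μ' : (ι → ℝ) → ℝ) (c' : ℂ)
    (h : HW 𝔤 e ζ k μ c) (h' : HW 𝔤 e ζ k' μ' c') :
    HW 𝔤 e ζ (k + k') (fun s => μ s + μ' s) (c * c') := by
  obtain ⟨ω, h0, h1, h2, h3⟩ := h
  obtain ⟨ω', h0', h1', h2', h3'⟩ := h'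
  refine ⟨tmul ω ω', tmul_ne h0 h0', fun a => ?_, fun s hs => ?_, ?_⟩
  · rw [dTP_tmul, h1, h1', tmul_zero_left, tmul_zero_right, add_zero]
  · rw [dTP_tmul, h2 s hs, h2' s hs, tmul_smul_left, tmul_smul_right, ← add_smul]
    push_cast
    rfl
  · rw [TP_tmul, h3, h3', tmul_smul_left, tmul_smul_right, smul_smul]

/-- part (2) -/
lemma HW_one (𝔤 : Submodule ℂ (Matrix ι ι ℂ)) {r : ℕ} (e : Fin r → Matrix ι ι ℂ) (ζ : ι → ℂ) :
    HW 𝔤 e ζ 0 (fun _ => 0) 1 := by
  refine ⟨fun _ => 1, ?_, fun a => ?_, fun s hs => ?_, ?_⟩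
  · intro h
    exact one_ne_zero (congrFun h Fin.elim0)
  · funext I
    rw [dTP_mulVec, Fin.sum_univ_zero, Pi.zero_apply]
  · funext I
    rw [dTP_mulVec, Fin.sum_univ_zero, Complex.ofReal_zero, zero_smul, Pi.zero_apply]
  · funext I
    rw [TP_diag_apply, Fin.prod_univ_zero, one_smul, one_mul]

/-- the coordinate vector -/
def cvec (j : ι) : (Fin 1 → ι) → ℂ := fun I => if I 0 = j then 1 else 0

lemma dTP_cvec (x : Matrix ι ι ℂ) (j : ι) (I : Fin 1 → ι) :
    (dTP x 1 *ᵥ cvec j) I = x (I 0) j := by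
  rw [dTP_mulVec, Fin.sum_univ_one, Finset.sum_eq_single j]
  · unfold cvec
    rw [Function.update_self, if_pos rfl, mul_one]
  · intro a _ ha
    unfold cvec
    rw [Function.update_self, if_neg ha, mul_zero]
  · intro h
    exact absurd (Finset.mem_univ _) h

/-- part (3) -/
lemma HW_cvec (𝔤 : Submodule ℂ (Matrix ι ι ℂ)) {r : ℕ} (e : Fin r → Matrix ι ι ℂ) (ζ : ι → ℂ)
    (j : ι) (h : ∀ a i, e a i j = 0) : HW 𝔤 e ζ 1 (fun s => s j) (ζ j) := by
  refine ⟨cvec j, ?_, fun a => ?_, fun s hs => ?_, ?_⟩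
  · intro h0
    have h1 := congrFun h0 (fun _ => j)
    unfold cvec at h1
    rw [if_pos rfl] at h1
    exact one_ne_zero h1
  · funext I
    rw [dTP_cvec, h, Pi.zero_apply]
  · funext I
    rw [dTP_cvec, Pi.smul_apply, smul_eq_mul]
    unfold dg cvec
    by_cases hI : I 0 = j
    · rw [if_pos hI, hI, diagonal_apply_eq, mul_one]
    · rw [if_neg hI, diagonal_apply_ne _ hI, mul_zero]
  · funext I
    rw [TP_diag_apply, Fin.prod_univ_one, Pi.smul_apply, smul_eq_mul]
    unfold cvec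
    by_cases hI : I 0 = j
    · rw [if_pos hI, hI]
    · rw [if_neg hI, mul_zero, mul_zero]

theorem main_HWM : Pool.Agent.Q271.ZG.S_HWM := by
  intro ι _ _ 𝔤 ρ r e α hA hS ζ hζ hζC
  refine ⟨HW_mul 𝔤 e ζ, HW_one 𝔤 e ζ, HW_cvec 𝔤 e ζ, fun a => ?_⟩
  -- a nonzero entry
  have hea : e a ≠ 0 := by
    intro h0
    have h1 := hS.self a
    rw [h0, zero_mul, conjTranspose_zero, zero_mul, sub_zero] at h1
    have h2 : α a = 0 := by
      funext l
      have h3 := congrFun (congrFun h1 l) l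
      unfold dg at h3
      rw [diagonal_apply_eq, Matrix.zero_apply] at h3
      exact (Complex.ofReal_eq_zero.1 h3.symm)
    have h4 := hS.pos a
    rw [h2, zero_dotProduct] at h4
    exact lt_irrefl _ h4
  obtain ⟨j, i, hji⟩ : ∃ j i, e a j i ≠ 0 := by
    by_contra hcon
    push Not at hcon
    exact hea (Matrix.ext fun p q => hcon p q)
  have hij : ρ i < ρ j := by
    have h1 := hS.wt a ρ hA.mem j i hji
    have h2 := hS.pos a
    linarith
  -- the enumeration
  set J : Finset ι := Finset.univ.filter (fun l => ρ j ≤ ρ l) with hJ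
  have hJm : ∀ l, l ∈ J ↔ ρ j ≤ ρ l := by
    intro l
    rw [hJ, Finset.mem_filter]
    exact ⟨fun h => h.2, fun h => ⟨Finset.mem_univ _, h⟩⟩
  set c : Fin J.card → ι := fun m => (J.equivFin.symm m : ι) with hc
  have hcinj : Function.Injective c := by
    intro m m' h
    exact J.equivFin.symm.injective (Subtype.ext h)
  have hcJ : ∀ m, c m ∈ J := fun m => (J.equivFin.symm m).2
  have hcr : ∀ l ∈ J, ∃ m, c m = l := by
    intro l hl
    refine ⟨J.equivFin ⟨l, hl⟩, ?_⟩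
    rw [hc]
    simp
  have hnr : ∀ l, l ∉ Set.range c → ρ l < ρ j := by
    intro l hl
    by_contra hcon
    push Not at hcon
    obtain ⟨m, hm⟩ := hcr l ((hJm l).2 hcon)
    exact hl ⟨m, hm⟩
  obtain ⟨m₀, hm₀⟩ := hcr j ((hJm j).2 le_rfl)
  have hir : i ∉ Set.range c := by
    rintro ⟨m, hm⟩
    have h1 := (hJm _).1 (hcJ m)
    rw [hm] at h1
    exact absurd hij (not_lt.2 h1)
  obtain ⟨hone, hTP, hdT, hupd, -⟩ := main_WDG ι J.card c hcinj
  set ω := wdg c with hω
  -- the actions on `ω`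
  have hkill : ∀ b, dTP (e b) J.card *ᵥ ω = 0 := by
    intro b
    have hpos := hS.pos b
    rw [hdT (e b) ?_]
    · have h1 : ∑ s, e b (c s) (c s) = 0 := by
        refine Finset.sum_eq_zero fun s _ => ?_
        by_contra hcon
        have h2 := hS.wt b ρ hA.mem _ _ hcon
        linarith
      rw [h1, zero_smul]
    · intro l hl s
      by_contra hcon
      have h2 := hS.wt b ρ hA.mem _ _ hcon
      have h3 := hnr l hl
      have h4 := (hJm _).1 (hcJ s)
      linarith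
  have hdg : ∀ s : ι → ℝ, dTP (dg s) J.card *ᵥ ω = ((∑ m, s (c m) : ℝ) : ℂ) • ω := by
    intro s
    rw [hdT (dg s) ?_]
    · congr 1
      push_cast
      refine Finset.sum_congr rfl fun m _ => ?_
      unfold dg
      rw [diagonal_apply_eq]
    · intro l hl m
      unfold dg
      refine diagonal_apply_ne _ ?_
      rintro rfl
      exact hl ⟨m, rfl⟩
  have hTζ : TP (diagonal ζ) J.card *ᵥ ω = (∏ m, ζ (c m)) • ω := by
    funext I
    rw [hTP, Pi.smul_apply, smul_eq_mul, hω, wdg_eq, ← det_mul_row]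
    congr 1
    ext p q
    unfold wm
    simp only [of_apply]
    by_cases h : I p = c q
    · rw [if_pos h, h, diagonal_apply_eq, mul_one]
    · rw [if_neg h, diagonal_apply_ne _ h, mul_zero]
  have hω0 : ω ≠ 0 := by
    intro h
    rw [h] at hone
    exact zero_ne_one hone
  -- the second tensor
  set ω' := dTP (e a)ᴴ J.card *ᵥ ω with hω'
  have hstar : (e a)ᴴ ∈ 𝔤 := hA.star _ (hS.mem a)
  have hkill' : ∀ b, ∃ κ : ℂ, dTP (e b) J.card *ᵥ ω' = κ • ω := by
    intro b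
    rw [hω', dTP_comm, hkill b, mulVec_zero, add_zero]
    by_cases hb : b = a
    · rw [hb, hS.self a, hdg]
      exact ⟨_, rfl⟩
    · rw [hS.ne b a hb]
      refine ⟨0, ?_⟩
      funext I
      rw [dTP_mulVec, zero_smul, Pi.zero_apply]
      refine Finset.sum_eq_zero fun m _ => Finset.sum_eq_zero fun l _ => ?_
      rw [Matrix.zero_apply, zero_mul]
  have hdg' : ∀ s : ι → ℝ, dg s ∈ 𝔤 → dTP (dg s) J.card *ᵥ ω' =
      ((∑ m, s (c m) - α a ⬝ᵥ s : ℝ) : ℂ) • ω' := by
    intro s hs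
    have h1 : dg s * (e a)ᴴ - (e a)ᴴ * dg s = (-((α a ⬝ᵥ s : ℝ) : ℂ)) • (e a)ᴴ := by
      ext p q
      unfold dg
      rw [Matrix.sub_apply, diagonal_mul, mul_diagonal, Matrix.smul_apply, smul_eq_mul, conjTranspose_apply]
      by_cases h : e a q p = 0
      · rw [h, star_zero]
        ring
      · have h2 := hS.wt a s hs q p h
        rw [← h2]
        push_cast
        ring
    rw [hω', dTP_comm, h1, dTP_smul_apply, hdg, mulVec_smul, ← add_smul]
    congr 1
    push_cast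
    ring
  have hTζ' : TP (diagonal ζ) J.card *ᵥ ω' = (∏ m, ζ (c m)) • ω' := by
    rw [hω', TP_diag_comm ζ _ (hζC.1 _ hstar), hTζ, mulVec_smul]
  have hv1 : ω' (Function.update c m₀ i) ≠ 0 := by
    rw [hω', hupd _ m₀ i hir, hm₀, conjTranspose_apply]
    exact star_ne_zero.2 hji
  have hv2 : ω (Function.update c m₀ i) = 0 := by
    rw [hω, wdg_eq, wm_update]
    refine det_eq_zero_of_row_eq_zero m₀ fun s => ?_
    rw [updateRow_self, if_neg]
    intro h
    exact hir ⟨s, h.symm⟩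
  refine ⟨J.card, fun s => ∑ m, s (c m), ∏ m, ζ (c m), Finset.card_le_univ _,
    Finset.prod_ne_zero_iff.2 fun m _ => hζ _, ⟨ω, hω0, hkill, fun s _ => hdg s, hTζ⟩,
    ⟨tmul ω ω' - tmul ω' ω, ?_, fun b => ?_, fun s hs => ?_, ?_⟩⟩
  · intro h
    have h1 := congrFun h (Fin.append c (Function.update c m₀ i))
    rw [Pi.sub_apply, tmul_append, tmul_append, hone, hv2, one_mul, mul_zero, sub_zero] at h1
    exact hv1 h1
  · obtain ⟨κ, hκ⟩ := hkill' b
    rw [mulVec_sub, dTP_tmul, dTP_tmul, hkill b, hκ, tmul_zero_left, tmul_zero_right,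
      tmul_smul_left, tmul_smul_right]
    abel
  · rw [mulVec_sub, dTP_tmul, dTP_tmul, hdg s, hdg' s hs, tmul_smul_left, tmul_smul_right,
      tmul_smul_left, tmul_smul_right, smul_sub, ← add_smul, ← add_smul]
    congr 1
    · congr 1
      push_cast
      ring
    · congr 1
      push_cast
      ring
  · rw [mulVec_sub, TP_tmul, TP_tmul, hTζ, hTζ', tmul_smul_left, tmul_smul_right,
      tmul_smul_left, tmul_smul_right, smul_smul, smul_smul, smul_sub]

end Pool.Agent.Q261.ZG
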