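import Mathlib

/-!
# Project ZG: simultaneous diagonalisation of commuting Hermitian matrices by a unitary matrix
-/

set_option autoImplicit false

namespace Pool.Agent.Q261.ZG

open Matrix

variable {ι : Type} [Fintype ι] [DecidableEq ι]

/-- commuting Hermitian matrices are diagonal in a common orthonormal basis -/
theorem simdiag (S : Set (Matrix ι ι ℂ)) (hH : ∀ s ∈ S, sᴴ = s)
    (hC : ∀ s ∈ S, ∀ t ∈ S, s * t = t * s) :
    ∃ U : Matrix ι ι ℂ, U * Uᴴ = 1 ∧ ∀ s ∈ S, ∀ i j, i ≠ j → (U * s * Uᴴ) i j = 0 := by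
  classical
  let T : S → Module.End ℂ (EuclideanSpace ℂ ι) :=
    fun s => Matrix.toEuclideanLin (s : Matrix ι ι ℂ)
  have hT : ∀ s, (T s).IsSymmetric := fun s =>
    Matrix.isSymmetric_toEuclideanLin_iff.2 (hH s s.2)
  have hComm : Pairwise (Function.onFun Commute T) := by
    intro s t _
    show T s * T t = T t * T s
    refine LinearMap.ext fun v => ?_
    show WithLp.toLp 2 ((s : Matrix ι ι ℂ) *ᵥ ((t : Matrix ι ι ℂ) *ᵥ v.ofLp)) =
      WithLp.toLp 2 ((t : Matrix ι ι ℂ) *ᵥ ((s : Matrix ι ι ℂ) *ᵥ v.ofLp))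
    rw [mulVec_mulVec, mulVec_mulVec, hC s s.2 t t.2]
  let V : (S → ℂ) → Submodule ℂ (EuclideanSpace ℂ ι) :=
    fun χ => ⨅ s, Module.End.eigenspace (T s) (χ s)
  have hV : OrthogonalFamily ℂ (fun χ => V χ) fun χ => (V χ).subtypeₗᵢ :=
    LinearMap.IsSymmetric.orthogonalFamily_iInf_eigenspaces hT
  have htop : ⨆ χ, V χ = ⊤ := LinearMap.IsSymmetric.iSup_iInf_eq_top_of_commute hT hComm
  have hfin : {χ | V χ ≠ ⊥}.Finite := WellFoundedGT.finite_ne_bot_of_iSupIndep hV.independent
  haveI : Fintype {χ // V χ ≠ ⊥} := hfin.fintype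
  let W : {χ // V χ ≠ ⊥} → Submodule ℂ (EuclideanSpace ℂ ι) := fun χ => V χ
  have hW : OrthogonalFamily ℂ (fun χ => W χ) fun χ => (W χ).subtypeₗᵢ :=
    hV.comp Subtype.coe_injective
  have hWtop : ⨆ χ, W χ = ⊤ := by
    rw [← htop]
    exact iSup_ne_bot_subtype V
  have hint : DirectSum.IsInternal W := by
    rw [OrthogonalFamily.isInternal_iff hW, hWtop, Submodule.top_orthogonal_eq_bot]
  have hn : Module.finrank ℂ (EuclideanSpace ℂ ι) = Fintype.card ι := finrank_euclideanSpace
  let b : OrthonormalBasis ι ℂ (EuclideanSpace ℂ ι) :=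
    (hint.subordinateOrthonormalBasis hn hW).reindex (Fintype.equivFin ι).symm
  have hb : ∀ i, ∃ χ : S → ℂ, b i ∈ V χ := by
    intro i
    refine ⟨(hint.subordinateOrthonormalBasisIndex hn ((Fintype.equivFin ι).symm.symm i) hW).1,
      ?_⟩
    have h1 := hint.subordinateOrthonormalBasis_subordinate hn ((Fintype.equivFin ι).symm.symm i) hW
    rw [show b i = (hint.subordinateOrthonormalBasis hn hW) ((Fintype.equivFin ι).symm.symm i) from
      OrthonormalBasis.reindex_apply _ _ _]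
    exact h1
  choose χ hχ using hb
  have hon : ∀ i j, ∑ l, star ((b i).ofLp l) * (b j).ofLp l = if i = j then (1 : ℂ) else 0 := by
    intro i j
    have h1 := (orthonormal_iff_ite.1 b.orthonormal) i j
    rw [PiLp.inner_apply] at h1
    rw [← h1]
    refine Finset.sum_congr rfl fun l _ => ?_
    rw [RCLike.inner_apply, mul_comm]
    rfl
  refine ⟨Matrix.of fun i j => star ((b i).ofLp j), ?_, fun s hs i j hij => ?_⟩
  · ext i j
    rw [mul_apply, one_apply, ← hon i j]
    refine Finset.sum_congr rfl fun l _ => ?_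
    rw [conjTranspose_apply, of_apply, of_apply, star_star]
  · have h1 : ∀ l, ∑ m, s l m * (b j).ofLp m = χ j ⟨s, hs⟩ * (b j).ofLp l := by
      intro l
      have h2 : b j ∈ Module.End.eigenspace (T ⟨s, hs⟩) (χ j ⟨s, hs⟩) :=
        (Submodule.mem_iInf _).1 (hχ j) ⟨s, hs⟩
      rw [Module.End.mem_eigenspace_iff] at h2
      have h3 := congrArg (fun v : EuclideanSpace ℂ ι => v.ofLp l) h2
      exact h3
    rw [Matrix.mul_assoc, mul_apply]
    have h4 : ∀ l, (s * (Matrix.of fun i j => star ((b i).ofLp j))ᴴ) l j =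
        χ j ⟨s, hs⟩ * (b j).ofLp l := by
      intro l
      rw [mul_apply, ← h1]
      refine Finset.sum_congr rfl fun m _ => ?_
      rw [conjTranspose_apply, of_apply, star_star]
    have h5 : ∑ l, (Matrix.of fun i j => star ((b i).ofLp j)) i l *
        (s * (Matrix.of fun i j => star ((b i).ofLp j))ᴴ) l j =
        χ j ⟨s, hs⟩ * ∑ l, star ((b i).ofLp l) * (b j).ofLp l := by
      rw [Finset.mul_sum]
      refine Finset.sum_congr rfl fun l _ => ?_
      rw [h4, of_apply]
      ring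
    rw [h5, hon, if_neg hij, mul_zero]

end Pool.Agent.Q261.ZG
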