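import Mathlib
import Pool.Agent.Q271.ZG.Stm
import Pool.Agent.Q261.ZG.SimD

/-!
# Project ZG, job ADAPT: adapted coordinates
-/

set_option autoImplicit false

namespace Pool.Agent.Q261.ZG

open Matrix Pool.Agent.Q60.ED Pool.Agent.Q271.ZG

variable {ι : Type} [Fintype ι] [DecidableEq ι]

/-- commuting Hermitian subspaces of `𝔤` -/
structure Tor (𝔤 : Submodule ℂ (Matrix ι ι ℂ)) (𝔱 : Submodule ℝ (Matrix ι ι ℂ)) : Prop where
  mem : ∀ t ∈ 𝔱, t ∈ 𝔤
  herm : ∀ t ∈ 𝔱, tᴴ = t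
  comm : ∀ t ∈ 𝔱, ∀ u ∈ 𝔱, t * u = u * t

omit [DecidableEq ι] in
lemma real_smul_eq (c : ℝ) (x : Matrix ι ι ℂ) : c • x = (c : ℂ) • x := by
  ext i j
  rw [Matrix.smul_apply, Matrix.smul_apply, smul_eq_mul, Complex.real_smul]

omit [DecidableEq ι] in
lemma conj_real_smul (c : ℝ) (x : Matrix ι ι ℂ) : (c • x)ᴴ = c • xᴴ := by
  ext i j
  rw [conjTranspose_apply, Matrix.smul_apply, Matrix.smul_apply, conjTranspose_apply,
    Complex.real_smul, Complex.real_smul, star_mul']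
  congr 1
  exact Complex.conj_ofReal c

lemma Tor.sup {𝔤 : Submodule ℂ (Matrix ι ι ℂ)} {𝔱 : Submodule ℝ (Matrix ι ι ℂ)} (hT : Tor 𝔤 𝔱)
    {h : Matrix ι ι ℂ} (h1 : h ∈ 𝔤) (h2 : hᴴ = h) (h3 : ∀ t ∈ 𝔱, h * t = t * h) :
    Tor 𝔤 (𝔱 ⊔ Submodule.span ℝ {h}) := by
  refine ⟨fun t ht => ?_, fun t ht => ?_, fun t ht u hu => ?_⟩
  · obtain ⟨a, ha, b, hb, rfl⟩ := Submodule.mem_sup.1 ht
    obtain ⟨c, rfl⟩ := Submodule.mem_span_singleton.1 hb
    rw [real_smul_eq]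
    exact 𝔤.add_mem (hT.mem a ha) (𝔤.smul_mem _ h1)
  · obtain ⟨a, ha, b, hb, rfl⟩ := Submodule.mem_sup.1 ht
    obtain ⟨c, rfl⟩ := Submodule.mem_span_singleton.1 hb
    rw [conjTranspose_add, conj_real_smul, hT.herm a ha, h2]
  · obtain ⟨a, ha, b, hb, rfl⟩ := Submodule.mem_sup.1 ht
    obtain ⟨c, rfl⟩ := Submodule.mem_span_singleton.1 hb
    obtain ⟨a', ha', b', hb', rfl⟩ := Submodule.mem_sup.1 hu
    obtain ⟨c', rfl⟩ := Submodule.mem_span_singleton.1 hb'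
    have e1 := hT.comm a ha a' ha'
    have e2 := h3 a ha
    have e3 := h3 a' ha'
    simp only [add_mul, mul_add, smul_mul_assoc, mul_smul_comm, e1, e2, e3, smul_add, smul_smul]
    rw [mul_comm c c']
    abel

lemma exists_tor (𝔤 : Submodule ℂ (Matrix ι ι ℂ)) :
    ∃ 𝔱 : Submodule ℝ (Matrix ι ι ℂ), Tor 𝔤 𝔱 ∧
      ∀ h ∈ 𝔤, hᴴ = h → (∀ t ∈ 𝔱, h * t = t * h) → h ∈ 𝔱 := by
  have hne : ({𝔱 | Tor 𝔤 𝔱} : Set (Submodule ℝ (Matrix ι ι ℂ))).Nonempty := by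
    refine ⟨⊥, fun t ht => ?_, fun t ht => ?_, fun t ht u hu => ?_⟩
    · rw [(Submodule.mem_bot ℝ).1 ht]
      exact 𝔤.zero_mem
    · rw [(Submodule.mem_bot ℝ).1 ht, conjTranspose_zero]
    · rw [(Submodule.mem_bot ℝ).1 ht, zero_mul, mul_zero]
  obtain ⟨𝔱, (h𝔱 : Tor 𝔤 𝔱), hmax⟩ := (wellFounded_gt (α := Submodule ℝ (Matrix ι ι ℂ))).has_min _ hne
  refine ⟨𝔱, h𝔱, fun h h1 h2 h3 => ?_⟩
  have hsup := h𝔱.sup h1 h2 h3
  have hnot := hmax _ hsup
  have hle : 𝔱 ⊔ Submodule.span ℝ {h} ≤ 𝔱 := by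
    by_contra hcon
    exact hnot (lt_of_le_not_ge le_sup_left hcon)
  exact hle (Submodule.mem_sup_right (Submodule.mem_span_singleton_self h))

/-- membership in the conjugate -/
lemma mem_cj {U U' : Matrix ι ι ℂ} {𝔤 : Submodule ℂ (Matrix ι ι ℂ)} {y : Matrix ι ι ℂ} :
    y ∈ cj U U' 𝔤 ↔ ∃ x ∈ 𝔤, U * x * U' = y := by
  unfold cj
  rw [Submodule.mem_map]
  constructor
  · rintro ⟨x, hx, rfl⟩
    refine ⟨x, hx, ?_⟩
    show U * x * U' = U * (x * U')
    rw [Matrix.mul_assoc]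
  · rintro ⟨x, hx, rfl⟩
    refine ⟨x, hx, ?_⟩
    show U * (x * U') = U * x * U'
    rw [Matrix.mul_assoc]

omit [DecidableEq ι] in
lemma ctr_star {𝔤 : Submodule ℂ (Matrix ι ι ℂ)} (hs : IsStar 𝔤) {z : Matrix ι ι ℂ}
    (hz : z ∈ Ctr 𝔤) : zᴴ ∈ Ctr 𝔤 := by
  refine ⟨fun x hx => ?_, fun c hc => ?_⟩
  · have h1 := congrArg conjTranspose (hz.1 _ (hs x hx))
    rw [conjTranspose_mul, conjTranspose_mul, conjTranspose_conjTranspose] at h1
    exact h1.symm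
  · have h0 : ∀ x ∈ 𝔤, cᴴ * x = x * cᴴ := by
      intro x hx
      have h1 := congrArg conjTranspose (hc _ (hs x hx))
      rw [conjTranspose_mul, conjTranspose_mul, conjTranspose_conjTranspose] at h1
      exact h1.symm
    have h1 := congrArg conjTranspose (hz.2 _ h0)
    rw [conjTranspose_mul, conjTranspose_mul, conjTranspose_conjTranspose] at h1
    exact h1.symm

omit [DecidableEq ι] in
lemma ctr_add {𝔤 : Submodule ℂ (Matrix ι ι ℂ)} {z w : Matrix ι ι ℂ}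
    (hz : z ∈ Ctr 𝔤) (hw : w ∈ Ctr 𝔤) : z + w ∈ Ctr 𝔤 := by
  refine ⟨fun x hx => ?_, fun c hc => ?_⟩
  · rw [add_mul, mul_add, hz.1 x hx, hw.1 x hx]
  · rw [add_mul, mul_add, hz.2 c hc, hw.2 c hc]

omit [DecidableEq ι] in
lemma ctr_smul {𝔤 : Submodule ℂ (Matrix ι ι ℂ)} {z : Matrix ι ι ℂ} (a : ℂ)
    (hz : z ∈ Ctr 𝔤) : a • z ∈ Ctr 𝔤 := by
  refine ⟨fun x hx => ?_, fun c hc => ?_⟩
  · rw [smul_mul_assoc, mul_smul_comm, hz.1 x hx]
  · rw [smul_mul_assoc, mul_smul_comm, hz.2 c hc]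

/-- the Hermitian parts -/
lemma herm_parts (z : Matrix ι ι ℂ) :
    (z + zᴴ)ᴴ = z + zᴴ ∧ (Complex.I • z + (-Complex.I) • zᴴ)ᴴ =
      Complex.I • z + (-Complex.I) • zᴴ ∧
      z = (1 / 2 : ℂ) • (z + zᴴ) + (-(Complex.I / 2)) •
        (Complex.I • z + (-Complex.I) • zᴴ) := by
  refine ⟨?_, ?_, ?_⟩
  · rw [conjTranspose_add, conjTranspose_conjTranspose, add_comm]
  · ext i j
    simp only [conjTranspose_apply, Matrix.add_apply, Matrix.smul_apply, smul_eq_mul, star_add,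
      star_mul', star_star, star_neg]
    have h1 : star Complex.I = -Complex.I := Complex.conj_I
    rw [h1]
    ring
  · ext i j
    simp only [conjTranspose_apply, Matrix.add_apply, Matrix.smul_apply, smul_eq_mul]
    ring_nf
    rw [Complex.I_sq]
    ring

/-- a generic element of a real subspace -/
lemma exists_generic (T : Submodule ℝ (ι → ℝ)) :
    ∃ ρ ∈ T, ∀ s ∈ T, ∀ i j k l, ρ i - ρ j = ρ k - ρ l → s i - s j = s k - s l := by
  classical
  let pr : ι → ((ι → ℝ) →ₗ[ℝ] ℝ) := fun i => LinearMap.proj i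
  let W : ι × ι × ι × ι → Submodule ℝ T := fun q =>
    LinearMap.ker ((((pr q.1 - pr q.2.1) - (pr q.2.2.1 - pr q.2.2.2))).comp T.subtype)
  have hW : ∀ q (s : T), s ∈ W q ↔ (s : ι → ℝ) q.1 - (s : ι → ℝ) q.2.1 =
      (s : ι → ℝ) q.2.2.1 - (s : ι → ℝ) q.2.2.2 := by
    intro q s
    rw [LinearMap.mem_ker]
    show ((s : ι → ℝ) q.1 - (s : ι → ℝ) q.2.1) -
      ((s : ι → ℝ) q.2.2.1 - (s : ι → ℝ) q.2.2.2) = 0 ↔ _
    exact sub_eq_zero
  have h1 : ⋃ p ∈ (Finset.univ.image W).erase ⊤, (p : Set T) ≠ Set.univ :=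
    Subspace.biUnion_ne_univ_of_top_notMem (Finset.notMem_erase _ _)
  obtain ⟨ρ, hρ⟩ := (Set.ne_univ_iff_exists_notMem _).1 h1
  refine ⟨ρ, ρ.2, fun s hs i j k l h => ?_⟩
  have h2 : ρ ∈ W (i, j, k, l) := (hW _ _).2 h
  have h3 : W (i, j, k, l) = ⊤ := by
    by_contra hcon
    refine hρ (Set.mem_iUnion₂.2 ⟨W (i, j, k, l), ?_, h2⟩)
    exact Finset.mem_erase.2 ⟨hcon, Finset.mem_image_of_mem _ (Finset.mem_univ _)⟩
  exact (hW (i, j, k, l) ⟨s, hs⟩).1 (by rw [h3]; exact Submodule.mem_top)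

theorem main_ADAPT : Pool.Agent.Q271.ZG.S_ADAPT := by
  intro ι _ _ 𝔤 hstar hlie
  obtain ⟨𝔱, hT, hmax⟩ := exists_tor 𝔤
  obtain ⟨U, hU, hdiag⟩ := simdiag ({t | t ∈ 𝔱} ∪ {z | z ∈ Ctr 𝔤 ∧ zᴴ = z}) (by
      rintro s (hs | hs)
      · exact hT.herm s hs
      · exact hs.2) (by
      rintro s (hs | hs) t (ht | ht)
      · exact hT.comm s hs t ht
      · exact (ht.1.1 s (hT.mem s hs)).symm
      · exact hs.1.1 t (hT.mem t ht)
      · exact hs.1.2 t ht.1.1)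
  have hU' : Uᴴ * U = 1 := mul_eq_one_comm.1 hU
  -- conjugation
  have hconj : ∀ x : Matrix ι ι ℂ, Uᴴ * (U * x * Uᴴ) * U = x := by
    intro x
    calc Uᴴ * (U * x * Uᴴ) * U = (Uᴴ * U) * x * (Uᴴ * U) := by
          simp only [Matrix.mul_assoc]
      _ = x := by rw [hU', Matrix.one_mul, Matrix.mul_one]
  have hconj' : ∀ x : Matrix ι ι ℂ, U * (Uᴴ * x * U) * Uᴴ = x := by
    intro x
    calc U * (Uᴴ * x * U) * Uᴴ = (U * Uᴴ) * x * (U * Uᴴ) := by
          simp only [Matrix.mul_assoc]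
      _ = x := by rw [hU, Matrix.one_mul, Matrix.mul_one]
  have hcm : ∀ x y : Matrix ι ι ℂ, (U * x * Uᴴ) * (U * y * Uᴴ) = U * (x * y) * Uᴴ := by
    intro x y
    calc (U * x * Uᴴ) * (U * y * Uᴴ) = U * x * (Uᴴ * U) * y * Uᴴ := by
          simp only [Matrix.mul_assoc]
      _ = U * (x * y) * Uᴴ := by
          rw [hU', Matrix.mul_one]
          simp only [Matrix.mul_assoc]
  have hcs : ∀ x : Matrix ι ι ℂ, (U * x * Uᴴ)ᴴ = U * xᴴ * Uᴴ := by
    intro x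
    rw [conjTranspose_mul, conjTranspose_mul, conjTranspose_conjTranspose, Matrix.mul_assoc]
  have hinj : ∀ x y : Matrix ι ι ℂ, U * x * Uᴴ = U * y * Uᴴ → x = y := by
    intro x y h
    rw [← hconj x, h, hconj]
  -- the real diagonal matrices
  have hreal : ∀ y : Matrix ι ι ℂ, yᴴ = y → (∀ i j, i ≠ j → y i j = 0) →
      y = dg (fun i => (y i i).re) := by
    intro y hy hy'
    ext i j
    unfold dg
    by_cases hij : i = j
    · subst hij
      rw [diagonal_apply_eq]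
      have h1 : star (y i i) = y i i := by
        conv_rhs => rw [← hy]
        rw [conjTranspose_apply]
      exact (Complex.conj_eq_iff_re.1 h1).symm
    · rw [diagonal_apply_ne _ hij, hy' i j hij]
  have hdgH : ∀ s : ι → ℝ, (dg s : Matrix ι ι ℂ)ᴴ = dg s := by
    intro s
    unfold dg
    rw [diagonal_conjTranspose]
    congr 1
    funext i
    exact Complex.conj_ofReal _
  have hdd : ∀ s s' : ι → ℝ, (dg s : Matrix ι ι ℂ) * dg s' = dg s' * dg s := by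
    intro s s'
    unfold dg
    rw [diagonal_mul_diagonal, diagonal_mul_diagonal]
    congr 1
    funext i
    exact mul_comm _ _
  -- the torus
  let T : Submodule ℝ (ι → ℝ) :=
    { carrier := {s | Uᴴ * dg s * U ∈ 𝔱}
      add_mem' := by
        intro a b ha hb
        have h1 : Uᴴ * dg (a + b) * U = Uᴴ * dg a * U + Uᴴ * dg b * U := by
          have h2 : (dg (a + b) : Matrix ι ι ℂ) = dg a + dg b := by
            unfold dg
            rw [diagonal_add]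
            congr 1
            funext i
            rw [Pi.add_apply]
            push_cast
            rfl
          rw [h2, Matrix.mul_add, Matrix.add_mul]
        show Uᴴ * dg (a + b) * U ∈ 𝔱
        rw [h1]
        exact 𝔱.add_mem ha hb
      zero_mem' := by
        show Uᴴ * dg (0 : ι → ℝ) * U ∈ 𝔱
        have h2 : (dg (0 : ι → ℝ) : Matrix ι ι ℂ) = 0 := by
          unfold dg
          ext i j
          rw [Matrix.zero_apply, diagonal_apply]
          split_ifs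
          · rw [Pi.zero_apply, Complex.ofReal_zero]
          · rfl
        rw [h2, Matrix.mul_zero, Matrix.zero_mul]
        exact 𝔱.zero_mem
      smul_mem' := by
        intro c a ha
        show Uᴴ * dg (c • a) * U ∈ 𝔱
        have h2 : (dg (c • a) : Matrix ι ι ℂ) = c • dg a := by
          unfold dg
          ext i j
          rw [Matrix.smul_apply, diagonal_apply, diagonal_apply]
          split_ifs
          · rw [Pi.smul_apply, smul_eq_mul, Complex.real_smul, Complex.ofReal_mul]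
          · rw [smul_zero]
        rw [h2, Matrix.mul_smul, Matrix.smul_mul]
        exact 𝔱.smul_mem _ ha }
  have hTm : ∀ s : ι → ℝ, s ∈ T ↔ Uᴴ * dg s * U ∈ 𝔱 := fun s => Iff.rfl
  have htT : ∀ t ∈ 𝔱, ∃ s ∈ T, U * t * Uᴴ = dg s := by
    intro t ht
    have h1 : U * t * Uᴴ = dg (fun i => ((U * t * Uᴴ) i i).re) :=
      hreal _ (by rw [hcs, hT.herm t ht]) (hdiag t (Or.inl ht))
    refine ⟨_, ?_, h1⟩
    rw [hTm, ← h1, hconj]
    exact ht
  -- diagonal real matrices of the conjugate algebra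
  have hdgT : ∀ s : ι → ℝ, dg s ∈ cj U Uᴴ 𝔤 → s ∈ T := by
    intro s hs
    obtain ⟨x, hx, hxs⟩ := mem_cj.1 hs
    rw [hTm, ← hxs, hconj]
    refine hmax x hx (hinj _ _ ?_) fun t ht => hinj _ _ ?_
    · rw [← hcs, hxs, hdgH]
    · obtain ⟨s', -, hs'⟩ := htT t ht
      rw [← hcm, ← hcm, hxs, hs', hdd]
  obtain ⟨ρ, hρT, hgen⟩ := exists_generic T
  refine ⟨U, ρ, hU, ?_, ?_, ?_, ?_, ?_, ?_⟩
  · -- star
    intro y hy
    obtain ⟨x, hx, rfl⟩ := mem_cj.1 hy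
    exact mem_cj.2 ⟨xᴴ, hstar x hx, (hcs x).symm⟩
  · -- lie
    intro y hy y' hy'
    obtain ⟨x, hx, rfl⟩ := mem_cj.1 hy
    obtain ⟨x', hx', rfl⟩ := mem_cj.1 hy'
    refine mem_cj.2 ⟨x * x' - x' * x, hlie x hx x' hx', ?_⟩
    rw [hcm, hcm, Matrix.mul_sub, Matrix.sub_mul]
  · -- mem
    exact mem_cj.2 ⟨_, hT.mem _ hρT, hconj' _⟩
  · -- diag
    intro y hy hyρ
    obtain ⟨x, hx, rfl⟩ := mem_cj.1 hy
    have hcomm : ∀ t ∈ 𝔱, x * t = t * x := by
      intro t ht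
      obtain ⟨s, hs, hst⟩ := htT t ht
      refine hinj _ _ ?_
      rw [← hcm, ← hcm, hst]
      ext i j
      unfold dg
      rw [mul_diagonal, diagonal_mul]
      by_cases h : (U * x * Uᴴ) i j = 0
      · rw [h, zero_mul, mul_zero]
      · have h1 := hyρ i j h
        have h2 := hgen s hs i j i i (by rw [h1])
        rw [sub_self, sub_eq_zero] at h2
        rw [h2, mul_comm]
    have hcomm' : ∀ t ∈ 𝔱, xᴴ * t = t * xᴴ := by
      intro t ht
      have h1 := congrArg conjTranspose (hcomm t ht)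
      rw [conjTranspose_mul, conjTranspose_mul, hT.herm t ht] at h1
      exact h1.symm
    obtain ⟨hh1, hh2, hh3⟩ := herm_parts x
    have hm1 : x + xᴴ ∈ 𝔱 := by
      refine hmax _ (𝔤.add_mem hx (hstar x hx)) hh1 fun t ht => ?_
      rw [add_mul, mul_add, hcomm t ht, hcomm' t ht]
    have hm2 : Complex.I • x + (-Complex.I) • xᴴ ∈ 𝔱 := by
      refine hmax _ (𝔤.add_mem (𝔤.smul_mem _ hx) (𝔤.smul_mem _ (hstar x hx))) hh2 fun t ht => ?_
      rw [add_mul, mul_add, smul_mul_assoc, smul_mul_assoc, mul_smul_comm, mul_smul_comm,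
        hcomm t ht, hcomm' t ht]
    intro i j hij
    have h4 : U * x * Uᴴ = (1 / 2 : ℂ) • (U * (x + xᴴ) * Uᴴ) + (-(Complex.I / 2)) •
        (U * (Complex.I • x + (-Complex.I) • xᴴ) * Uᴴ) := by
      conv_lhs => rw [hh3]
      rw [Matrix.mul_add, Matrix.add_mul, Matrix.mul_smul, Matrix.smul_mul, Matrix.mul_smul,
        Matrix.smul_mul]
    rw [h4, Matrix.add_apply, Matrix.smul_apply, Matrix.smul_apply,
      hdiag _ (Or.inl hm1) i j hij, hdiag _ (Or.inl hm2) i j hij, smul_zero, smul_zero, add_zero]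
  · -- gen
    intro s hs i j k l h
    exact hgen s (hdgT s hs) i j k l h
  · -- ctr
    intro z hz i j hij
    have hz' : Uᴴ * z * U ∈ Ctr 𝔤 := by
      refine ⟨fun x hx => hinj _ _ ?_, fun c hc => hinj _ _ ?_⟩
      · rw [← hcm (Uᴴ * z * U) x, ← hcm x (Uᴴ * z * U), hconj']
        exact hz.1 _ (mem_cj.2 ⟨x, hx, rfl⟩)
      · rw [← hcm (Uᴴ * z * U) c, ← hcm c (Uᴴ * z * U), hconj']
        refine hz.2 _ fun y hy => ?_
        obtain ⟨x, hx, rfl⟩ := mem_cj.1 hy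
        rw [hcm, hcm, hc x hx]
    set x := Uᴴ * z * U with hxdef
    have hzx : U * x * Uᴴ = z := hconj' z
    obtain ⟨hh1, hh2, hh3⟩ := herm_parts x
    have hm1 : x + xᴴ ∈ Ctr 𝔤 := ctr_add hz' (ctr_star hstar hz')
    have hm2 : Complex.I • x + (-Complex.I) • xᴴ ∈ Ctr 𝔤 :=
      ctr_add (ctr_smul _ hz') (ctr_smul _ (ctr_star hstar hz'))
    have h4 : U * x * Uᴴ = (1 / 2 : ℂ) • (U * (x + xᴴ) * Uᴴ) + (-(Complex.I / 2)) •
        (U * (Complex.I • x + (-Complex.I) • xᴴ) * Uᴴ) := by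
      conv_lhs => rw [hh3]
      rw [Matrix.mul_add, Matrix.add_mul, Matrix.mul_smul, Matrix.smul_mul, Matrix.mul_smul,
        Matrix.smul_mul]
    rw [← hzx, h4, Matrix.add_apply, Matrix.smul_apply, Matrix.smul_apply,
      hdiag _ (Or.inr ⟨hm1, hh1⟩) i j hij, hdiag _ (Or.inr ⟨hm2, hh2⟩) i j hij, smul_zero,
      smul_zero, add_zero]

end Pool.Agent.Q261.ZG
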