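import Pool.Agent.Q271.ZG.Stm

/-! Project ZG, job OPT: maximisation over a compact group. -/

set_option autoImplicit false

namespace Pool.Agent.Q261.ZG

open Matrix Filter Topology
open scoped Matrix.Norms.Frobenius

variable {ι : Type} [Fintype ι] [DecidableEq ι]

/-- the real part of the trace of the product with `R` -/
noncomputable def trR (R : Matrix ι ι ℂ) : Matrix ι ι ℂ →ₗ[ℝ] ℝ where
  toFun := fun A => ((A * R).trace).re
  map_add' := fun A B => by rw [Matrix.add_mul, trace_add, Complex.add_re]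
  map_smul' := fun c A => by rw [Matrix.smul_mul, trace_smul]; simp

lemma hd_conj (z M : Matrix ι ι ℂ) (s : ℝ) :
    HasDerivAt (fun u : ℝ => NormedSpace.exp (u • z) * M * NormedSpace.exp (u • (-z)))
      (NormedSpace.exp (s • z) * (z * M - M * z) * NormedSpace.exp (s • (-z))) s := by
  have h1 := hasDerivAt_exp_smul_const (𝕂 := ℝ) z s
  have h2 := hasDerivAt_exp_smul_const' (𝕂 := ℝ) (-z) s
  refine ((h1.mul_const M).fun_mul h2).congr_deriv ?_
  noncomm_ring

lemma hd_tr (R z M : Matrix ι ι ℂ) (s : ℝ) :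
    HasDerivAt (fun u : ℝ => trR R (NormedSpace.exp (u • z) * M * NormedSpace.exp (u • (-z))))
      (trR R (NormedSpace.exp (s • z) * (z * M - M * z) * NormedSpace.exp (s • (-z)))) s :=
  (LinearMap.toContinuousLinearMap (trR R)).hasFDerivAt.comp_hasDerivAt s (hd_conj z M s)

lemma at_zero (R z M : Matrix ι ι ℂ) :
    trR R (NormedSpace.exp ((0 : ℝ) • z) * M * NormedSpace.exp ((0 : ℝ) • (-z))) = trR R M := by
  rw [zero_smul, zero_smul, NormedSpace.exp_zero, Matrix.one_mul, Matrix.mul_one]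

/-- first and second order conditions -/
lemma second (R z X : Matrix ι ι ℂ)
    (h : ∀ s : ℝ, trR R (NormedSpace.exp (s • z) * X * NormedSpace.exp (s • (-z))) ≤ trR R X) :
    trR R (z * X - X * z) = 0 ∧
      trR R (z * (z * X - X * z) - (z * X - X * z) * z) ≤ 0 := by
  obtain ⟨f, hf⟩ : ∃ f : ℝ → ℝ, f = fun s : ℝ =>
    trR R (NormedSpace.exp (s • z) * X * NormedSpace.exp (s • (-z))) := ⟨_, rfl⟩
  have hf0 : f 0 = trR R X := by rw [hf]; exact at_zero R z X
  have hmax : ∀ s, f s ≤ f 0 := fun s => by rw [hf0, hf]; exact h s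
  have hd1 : deriv f = fun s : ℝ => trR R (NormedSpace.exp (s • z) * (z * X - X * z) *
      NormedSpace.exp (s • (-z))) := by
    funext s
    rw [hf]
    exact (hd_tr R z X s).deriv
  have hc : Continuous f := by
    rw [hf, continuous_iff_continuousAt]
    exact fun s => (hd_tr R z X s).continuousAt
  have h1 : deriv f 0 = 0 :=
    IsLocalMax.deriv_eq_zero (Filter.Eventually.of_forall hmax)
  have h1' : trR R (z * X - X * z) = 0 := by
    rw [hd1] at h1
    have := at_zero R z (z * X - X * z)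
    rw [← this]
    exact h1
  refine ⟨h1', ?_⟩
  have hd2 : deriv (deriv f) 0 = trR R (z * (z * X - X * z) - (z * X - X * z) * z) := by
    rw [hd1, (hd_tr R z (z * X - X * z) 0).deriv]
    exact at_zero R z _
  by_contra hcon
  push Not at hcon
  rw [← hd2] at hcon
  have hmin := isLocalMin_of_deriv_deriv_pos hcon h1 hc.continuousAt
  have hev : f =ᶠ[𝓝 0] fun _ => f 0 := by
    filter_upwards [hmin] with s hs
    exact le_antisymm (hmax s) hs
  have h3 : deriv f =ᶠ[𝓝 0] deriv (fun _ : ℝ => f 0) := hev.deriv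
  have h4 : deriv (deriv f) 0 = deriv (deriv (fun _ : ℝ => f 0)) 0 := h3.deriv_eq
  rw [h4] at hcon
  simp at hcon

theorem main_OPT : Pool.Agent.Q271.ZG.S_OPT := by
  intro ι _ _ K 𝔨 X R hK h1K hKu hKm h𝔨 hX hR
  have hcont : Continuous fun k : Matrix ι ι ℂ => trR R (k * X * kᴴ) := by
    have h1 : Continuous (trR R) := (LinearMap.toContinuousLinearMap (trR R)).continuous
    refine h1.comp ?_
    have h2 : Continuous fun k : Matrix ι ι ℂ => k * X * kᴴ :=
      (continuous_id.mul continuous_const).mul (Continuous.matrix_conjTranspose continuous_id)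
    exact h2
  obtain ⟨k, hk, hmax⟩ := hK.exists_isMaxOn ⟨1, h1K⟩ hcont.continuousOn
  have key : ∀ z ∈ 𝔨, ∀ s : ℝ, trR R (NormedSpace.exp (s • z) * (k * X * kᴴ) *
      NormedSpace.exp (s • (-z))) ≤ trR R (k * X * kᴴ) := by
    intro z hz s
    obtain ⟨hzs, hze⟩ := h𝔨 z hz
    have h2 := hmax (hKm _ (hze s) _ hk)
    have h3 : (NormedSpace.exp (s • z) : Matrix ι ι ℂ)ᴴ = NormedSpace.exp (s • (-z)) := by
      rw [← Matrix.exp_conjTranspose, conjTranspose_smul, hzs, star_trivial]
    have h4 : NormedSpace.exp (s • z) * k * X * (NormedSpace.exp (s • z) * k)ᴴ =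
        NormedSpace.exp (s • z) * (k * X * kᴴ) * NormedSpace.exp (s • (-z)) := by
      rw [conjTranspose_mul, h3]
      simp only [Matrix.mul_assoc]
    have h5 : trR R (NormedSpace.exp (s • z) * k * X * (NormedSpace.exp (s • z) * k)ᴴ) ≤
      trR R (k * X * kᴴ) := h2
    rwa [h4] at h5
  have hX' : (k * X * kᴴ)ᴴ = k * X * kᴴ := by
    rw [conjTranspose_mul, conjTranspose_mul, conjTranspose_conjTranspose, hX, Matrix.mul_assoc]
  refine ⟨k, hk, fun z hz => ?_, fun z hz => ?_⟩
  · obtain ⟨h1, -⟩ := second R z _ (key z hz)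
    have hC : (z * (k * X * kᴴ) - k * X * kᴴ * z)ᴴ = z * (k * X * kᴴ) - k * X * kᴴ * z := by
      rw [conjTranspose_sub, conjTranspose_mul z, conjTranspose_mul _ z, hX', (h𝔨 z hz).1]
      noncomm_ring
    have h2 : star (((z * (k * X * kᴴ) - k * X * kᴴ * z) * R).trace) =
        ((z * (k * X * kᴴ) - k * X * kᴴ * z) * R).trace := by
      rw [← trace_conjTranspose, conjTranspose_mul, hC, hR, trace_mul_comm]
    have h3 : (((z * (k * X * kᴴ) - k * X * kᴴ * z) * R).trace).im = 0 :=
      Complex.conj_eq_iff_im.1 h2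
    exact Complex.ext h1 h3
  · obtain ⟨-, h1⟩ := second R z _ (key z hz)
    have h2 : ((z * (z * (k * X * kᴴ) - k * X * kᴴ * z) -
        (z * (k * X * kᴴ) - k * X * kᴴ * z) * z) * R).trace =
        -((z * (k * X * kᴴ) - k * X * kᴴ * z) * (z * R - R * z)).trace := by
      generalize z * (k * X * kᴴ) - k * X * kᴴ * z = C
      rw [Matrix.sub_mul, trace_sub, Matrix.mul_sub, trace_sub, Matrix.mul_assoc z, trace_mul_comm z,
        Matrix.mul_assoc C z, Matrix.mul_assoc C R]
      ring
    have h3 : ((z * (z * (k * X * kᴴ) - k * X * kᴴ * z) -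
        (z * (k * X * kᴴ) - k * X * kᴴ * z) * z) * R).trace.re ≤ 0 := h1
    rw [h2, Complex.neg_re] at h3
    linarith

end Pool.Agent.Q261.ZG
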